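import Pool.Agent.H70.KP.N.DE
import Pool.Agent.H70.KP.N.DR0
import Pool.Agent.H70.KP.N.DR1
import Pool.Agent.H70.KP.N.DR2
import Pool.Agent.H70.KP.N.DR3
import Pool.Agent.H70.KP.N.DR4
import Pool.Agent.H70.KP.N.DR5
import Pool.Agent.H70.KP.N.DR6
import Pool.Agent.H70.KP.N.DR7

set_option autoImplicit false

/-! MP_257582_lc: certificate (generated). -/

namespace Pool.Agent.H70.KP.N

open Pool.Agent.H70.KP
open Pool.Agent.L0h93.Karp.M5 (gr entL gr_eq okD)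
open Pool.Agent.H70.KP.R2 (RD okRT okRT_ok)

/-- relations -/
noncomputable def rlT : Tr Rl :=
  (.b (.b (.b rlT_0 rlT_4) (.b rlT_2 rlT_6)) (.b (.b rlT_1 rlT_5) (.b rlT_3 rlT_7)))

end Pool.Agent.H70.KP.N
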