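import Pool.Agent.H70.KP.N.DE
import Pool.Agent.H70.KP.Stm

set_option autoImplicit false

/-! MP_257582_lc: certificate (generated). -/

namespace Pool.Agent.H70.KP.N

open Pool.Agent.H70.KP
open Pool.Agent.L0h93.Karp.M5 (gr entL gr_eq okD)
open Pool.Agent.H70.KP.R2 (RD okRT okRT_ok)

/-- variables -/
noncomputable def L40 : ℕ := nat_lit 0x17b617b517b317b217b117b017af17ae17ac17a817a717a617a417a317a217a0179f179e179c179b179a1799179817971794179317921791178d178c1788178217811780177f177c177b177a1774176b17611760175f175a17571756175517541750174f174d174c174b174a174917481745173f173e173d173b173a173917381737173617351734173317321731172f172d172a17291728172717261723172217211720171f171e171d171b171a1719171817171716171517141713171217111710170f170e170d170c170b170a170917081707170617051704170317021701170016ff16fe16fd16f816f716f616f516f416f216ec16e416e316df16dc16db16da16d916d816d716d316d216d116cf16cc16ca16c816c616c516c416c316c216c116c016be16bd16bc16bb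

theorem l40 : allV (fun v => bif3 (okF0 (nat_lit 85) (nat_lit 255) (ent v)) true
    (List.elem (ent v) ([241] : List ℕ))) (nat_lit 150) L40 = true := by decide +kernel

/-- variables -/
noncomputable def L41 : ℕ := nat_lit 0x180418031802180017fa17f917f817f417f317f217f117f017ef17ed17eb17e917e617e517e417e117e017df17de17dd17db17d817d217ce17cd17cc17cb17c917c017bd17bb17ba17b917b817b7

theorem l41 : allV (fun v => bif3 (okF0 (nat_lit 85) (nat_lit 255) (ent v)) true
    (List.elem (ent v) ([241] : List ℕ))) (nat_lit 39) L41 = true := by decide +kernel

end Pool.Agent.H70.KP.N
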